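import Pool.Agent.Lib.MP_c7af3c_ag.GEN.Base

/-!
# MP_c7af3c_ag, project SHARP: heights of lines, restriction to a line
-/

set_option autoImplicit false

namespace Pool.Agent.Sharp

open MvPolynomial WithZero Pool.Agent.Gen

/-- the restriction of a form to the line through `x` and `y` -/
noncomputable def lineP {L : Type} [Field L] {n : ℕ} (F : MvPolynomial (Fin (n + 1)) L)
    (x y : Fin (n + 1) → L) : Polynomial L :=
  aeval (fun p => Polynomial.C (x p) + Polynomial.X * Polynomial.C (y p)) F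

/-- the Plücker coordinates of the line through `x` and `y` -/
def plu {L : Type} [Field L] {n : ℕ} (x y : Fin (n + 1) → L) (i j : Fin (n + 1)) : L :=
  x i * y j - x j * y i

/-- the size of the Plücker coordinates at a place -/
noncomputable def mxP {L : Type} [Field L] (S : PlaceSys L) {n : ℕ} (x y : Fin (n + 1) → L)
    (p : S.V) : ℤᵐ⁰ :=
  (Finset.univ : Finset (Fin (n + 1) × Fin (n + 1))).sup' ⟨(0, 0), Finset.mem_univ _⟩
    fun q => S.v p (plu x y q.1 q.2)

/-- the height of the line through `x` and `y` -/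
noncomputable def hL {L : Type} [Field L] (S : PlaceSys L) {n : ℕ} (x y : Fin (n + 1) → L) : ℤ :=
  ∑ᶠ p, (S.w p : ℤ) * log (mxP S x y p)

/-- the bounds of the derivations and coefficients at the places -/
structure BD {L : Type} [Field L] {n c : ℕ} {d : Fin c → ℕ} (S : PlaceSys L)
    (D : DSys L n c d) (B : S.V → ℕ) : Prop where
  fin : {p | B p ≠ 0}.Finite
  del : ∀ p m I, I.degree = d m → ∀ f, S.v p f ≤ 1 → S.v p (D.del m I f) ≤ exp (B p : ℤ)
  F : ∀ p m I, S.v p (coeff I (D.F m)) ≤ exp (B p : ℤ)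

/-- the total bound -/
noncomputable def tot {L : Type} [Field L] (S : PlaceSys L) (B : S.V → ℕ) : ℤ :=
  ∑ᶠ p, (S.w p : ℤ) * B p

section

variable {L : Type} [Field L] (S : PlaceSys L) {n : ℕ} (x y : Fin (n + 1) → L)

theorem le_mxP (p : S.V) (i j : Fin (n + 1)) : S.v p (plu x y i j) ≤ mxP S x y p :=
  Finset.le_sup' (fun q : Fin (n + 1) × Fin (n + 1) => S.v p (plu x y q.1 q.2))
    (Finset.mem_univ (i, j))

theorem exists_mxP (p : S.V) : ∃ i j, S.v p (plu x y i j) = mxP S x y p := by
  obtain ⟨q, -, hq⟩ := Finset.exists_mem_eq_sup'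
    (s := (Finset.univ : Finset (Fin (n + 1) × Fin (n + 1)))) ⟨(0, 0), Finset.mem_univ _⟩
    (fun q => S.v p (plu x y q.1 q.2))
  exact ⟨q.1, q.2, hq.symm⟩

theorem mxP_ne_zero {i j : Fin (n + 1)} (h : plu x y i j ≠ 0) (p : S.V) : mxP S x y p ≠ 0 := by
  intro h0
  have := le_mxP S x y p i j
  rw [h0, le_zero_iff, map_eq_zero] at this
  exact h this

theorem finite_mxP (hS : ∀ f : L, f ≠ 0 → {p | S.v p f ≠ 1}.Finite) {i j : Fin (n + 1)}
    (h : plu x y i j ≠ 0) : {p | mxP S x y p ≠ 1}.Finite := by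
  have hf : (⋃ q ∈ {q : Fin (n + 1) × Fin (n + 1) | plu x y q.1 q.2 ≠ 0},
      {p | S.v p (plu x y q.1 q.2) ≠ 1}).Finite :=
    Set.Finite.biUnion (Set.toFinite _) fun q hq => hS _ hq
  refine hf.subset fun p hp => ?_
  by_contra hc
  simp only [Set.mem_ofPred_eq, ne_eq, Set.mem_iUnion, exists_prop, not_exists, not_and,
    not_not] at hc hp
  apply hp
  obtain ⟨i', j', hi⟩ := exists_mxP S x y p
  have hi0 : plu x y i' j' ≠ 0 := fun h' => mxP_ne_zero S x y h p (by rw [← hi, h', map_zero])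
  rw [← hi]
  exact hc (i', j') hi0

/-- independent points have a nonzero Plücker coordinate -/
theorem exists_plu_ne {x y : Fin (n + 1) → L} (h : LinearIndependent L ![x, y])
    {j0 : Fin (n + 1)} (hj : x j0 ≠ 0) : ∃ i, plu x y j0 i ≠ 0 := by
  by_contra hcon
  push Not at hcon
  rw [LinearIndependent.pair_iff] at h
  have h1 := h (y j0) (- x j0) (by
    funext i
    have h2 := hcon i
    unfold plu at h2
    simp only [Pi.add_apply, Pi.smul_apply, smul_eq_mul, Pi.zero_apply]
    linear_combination -h2)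
  exact hj (by simpa using h1.2)

end

end Pool.Agent.Sharp
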